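import Pool.Agent.Work.MP_a793bb_nt.H6Gen2

set_option autoImplicit false

/-!
The abc conjecture over a number field `K` is equivalent to its restriction to the points
`(x ^ N : 1 - x ^ N : -1)` that are not defined over a proper subfield of `K` and are close to the
cusp `(0 : 1 : -1)` at all infinite places and at all places of any given finite set.
-/

namespace Pool.Agent.Work.MP_a793bb_nt.Retired.Localisation

open NumberField IsDedekindDomain Polynomial Pool.Agent.Work.MP_a793bb_nt

theorem result (K : Type*) [Field K] [NumberField K] (T : Finset (HeightOneSpectrum (𝓞 K)))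
    (δ : ℝ) (hδ : 0 < δ) (N : ℕ) (hN : 1 ≤ N) :
    ABC K ↔ ABCOn K (fun a _ c => (∃ x : K, a = -c * x ^ N) ∧
      IntermediateField.adjoin ℚ {a / c} = ⊤ ∧
      (∀ v : InfinitePlace K, v a ≤ δ * v c) ∧
      ∀ p ∈ T, FinitePlace.mk p a ≤ δ * FinitePlace.mk p c) := by
  constructor
  · intro H ε hε
    obtain ⟨C, hC⟩ := H ε hε
    exact ⟨C, fun a b c h1 h2 _ => hC a b c h1 h2⟩
  · intro H
    rw [ABC_iff_AffABC]
    refine H6.FIOn_to_AffABC (H6.FI_of_gen _ T.finite_toSet δ hδ N hN (H6.AffABC_to_FIOn ?_))
    rw [← ABCOn_iff_AffABC (H6.GenSmall (T : Set (HeightOneSpectrum (𝓞 K))) δ N) _ ?_]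
    · exact H
    · intro a b c _ hne
      have hc : c ≠ 0 := right_ne_zero_of_mul hne
      rw [H6.GenSmall, Set.mem_ofPred_eq]
      refine and_congr ?_ (and_congr ?_ (and_congr ?_ ?_))
      · refine exists_congr fun x => ?_
        rw [div_eq_iff hc]
        constructor
        · intro h; rw [h]; ring
        · intro h; linear_combination -h
      · have h1 : -a / c = -(a / c) := by ring
        have h2 : IntermediateField.adjoin ℚ {-(a / c)} = IntermediateField.adjoin ℚ {a / c} := by
          apply le_antisymm
          · rw [IntermediateField.adjoin_simple_le_iff]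
            exact neg_mem (IntermediateField.mem_adjoin_simple_self ℚ (a / c))
          · rw [IntermediateField.adjoin_simple_le_iff]
            have := neg_mem (IntermediateField.mem_adjoin_simple_self ℚ (-(a / c)))
            rwa [neg_neg] at this
        rw [h1, h2]
      · refine forall_congr' fun v => ?_
        have hvc : 0 < v c := v.1.pos hc
        rw [map_div₀, show v (-a) = v a from v.1.map_neg a, div_le_iff₀ hvc]
      · refine forall₂_congr fun p _ => ?_
        rw [div_eq_mul_inv, av_mul, av_inv, av_neg, ← div_eq_mul_inv, div_le_iff₀ (av_pos p hc)]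
        rfl

end Pool.Agent.Work.MP_a793bb_nt.Retired.Localisation
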