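import Pool.Agent.Work.MP_a793bb_nt.TR.Count
import Pool.Agent.Work.MP_a793bb_nt.TR.Lower

set_option autoImplicit false

namespace Pool.Agent.Results.MP_a793bb_nt.SharpExponent

/-- Coprime triples `a + b = c ≤ X` with `rad (a b c) ≤ c ^ lam` : at most
`C X ^ ((5 + lam) / 7 + ε)` of them for every `lam ≤ 2`, so for `lam < 2` all but a power-saving
set of integers `c` satisfy `rad (a b c) > c ^ lam` for every coprime decomposition, while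
every `c ≥ 2` has a coprime decomposition with `rad (a b c) ≤ c ^ 2`. -/
theorem result :
    (∀ lam : ℝ, 0 ≤ lam → lam ≤ 2 → ∀ ε : ℝ, 0 < ε → ∃ C : ℝ, ∀ X : ℕ, 1 ≤ X →
      (Set.ncard {p : ℕ × ℕ | 0 < p.1 ∧ 0 < p.2 ∧ p.1 + p.2 ≤ X ∧ Nat.Coprime p.1 p.2 ∧
        ((∏ q ∈ (p.1 * p.2 * (p.1 + p.2)).primeFactors, q : ℕ) : ℝ) ≤
          ((p.1 + p.2 : ℕ) : ℝ) ^ lam} : ℝ) ≤ C * (X : ℝ) ^ ((5 + lam) / 7 + ε)) ∧
    (∀ c : ℕ, 2 ≤ c → ∃ a b : ℕ, 0 < a ∧ 0 < b ∧ a + b = c ∧ Nat.Coprime a b ∧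
      ∏ q ∈ (a * b * c).primeFactors, q ≤ c ^ 2) := by
  refine ⟨fun lam h0 h2 ε hε => ?_, fun c hc => ?_⟩
  · obtain ⟨K, -, hK⟩ := AbcTR.count_le h0 h2 hε
    refine ⟨K, fun X hX => ?_⟩
    refine le_trans (le_of_eq ?_) (hK X hX)
    norm_cast
    rw [← Set.ncard_coe_finset]
    congr 1
    ext p
    simp only [AbcTR.Ex, Set.mem_ofPred_eq, Finset.coe_filter, Finset.mem_product,
      Finset.mem_Icc, AbcTR.rad]
    constructor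
    · rintro ⟨h1, h2, h3, h4, h5⟩
      exact ⟨⟨⟨h1, by omega⟩, h2, by omega⟩, h3, h4, h5⟩
    · rintro ⟨⟨⟨h1, -⟩, h2, -⟩, h3, h4, h5⟩
      exact ⟨h1, h2, h3, h4, h5⟩
  · exact AbcTR.lower_sq c hc

end Pool.Agent.Results.MP_a793bb_nt.SharpExponent
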